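import Pool.Agent.Helper47.KG.Graph
import Pool.Agent.Helper6.KG6
import Pool.Agent.Helper32.KG1

set_option autoImplicit false

open MeasureTheory Filter
open scoped ENNReal NNReal

namespace Pool.Agent.Results.MP_97775c_nt.OwnStatement

/-- the distance from `x` to the nearest integer -/
noncomputable def distInt (x : ℝ) : ℝ := |x - round x|

/-- the set `S_n(ψ)` of simultaneously `ψ`-approximable points of `ℝ^n`: all coordinates of `q x`
are within distance less than `ψ q` of the integers for infinitely many `q = 1, 2, 3, ...` -/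
def Approximable (n : ℕ) (ψ : ℕ+ → ℝ≥0) : Set (EuclideanSpace ℝ (Fin n)) :=
  {x | {q : ℕ+ | ∀ i, distInt (((q : ℕ) : ℝ) * x i) < ψ q}.Infinite}

/-- the affine subspace `L` of `ℝ^n` is of Khintchine type for divergence; the measure on `L` is
the Hausdorff measure of dimension `dim L` -/
def KhintchineTypeForDivergence {n : ℕ} (L : AffineSubspace ℝ (EuclideanSpace ℝ (Fin n))) : Prop :=
  ∀ ψ : ℕ+ → ℝ≥0, Antitone ψ → ∑' q, (ψ q : ℝ≥0∞) ^ n = ∞ →
    Measure.hausdorffMeasure (Module.finrank ℝ L.direction : ℝ)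
      ((L : Set (EuclideanSpace ℝ (Fin n))) \ Approximable n ψ) = 0

lemma core : ∀ (n d : ℕ), 1 ≤ d →
    ∀ (a : Fin n → ℝ) (A : (Fin d → ℝ) →ₗ[ℝ] (Fin n → ℝ)),
      Function.Injective A →
      ∀ ψ : ℕ → ℝ, (∀ q, 0 ≤ ψ q) → Antitone ψ →
        ¬ Summable (fun q : ℕ => ψ q ^ n) →
        ∀ᵐ t ∂(volume : Measure (Fin d → ℝ)),
          ∃ᶠ q : ℕ in atTop, ∀ i : Fin n,
            |(q : ℝ) * (a i + A t i) - (round ((q : ℝ) * (a i + A t i)) : ℝ)| < ψ q := by
  apply Pool.Agent.Helper6.KG.result_of_graph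
  intro d hd κ _ M c ψ h0 hψ hdiv
  have hK : 0 < ‖LinearMap.toContinuousLinearMap M‖ + 1 := by
    have := norm_nonneg (LinearMap.toContinuousLinearMap M)
    linarith
  obtain ⟨k, m, Q, hk, hm, -, hQ, hψQ, hS⟩ := Pool.Agent.Helper32.KG.selection d
    (Fintype.card κ) hd ψ h0 hψ hdiv (‖LinearMap.toContinuousLinearMap M‖ + 1) hK
  exact Pool.Agent.Helper47.KG.graph_core d hd κ M c ψ hψ _ le_rfl k m Q hk hm hQ hψQ hS

/-- Every affine subspace `L` of `ℝ^n` of dimension at least 1, `n ≥ 2`, is of Khintchine type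
for divergence. -/
theorem result (n : ℕ) (_hn : 2 ≤ n) (L : AffineSubspace ℝ (EuclideanSpace ℝ (Fin n)))
    (hL : 1 ≤ Module.finrank ℝ L.direction) : KhintchineTypeForDivergence L := by
  intro ψ hψ hdiv
  set d := Module.finrank ℝ L.direction with hd
  have hne : (L : Set (EuclideanSpace ℝ (Fin n))).Nonempty := by
    rcases L.eq_bot_or_nonempty with h | h
    · subst h
      rw [AffineSubspace.direction_bot, finrank_bot] at hd
      omega
    · exact h
  obtain ⟨p, hp⟩ := hne
  let b : Module.Basis (Fin d) ℝ L.direction := Module.finBasis ℝ L.direction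
  let T : (Fin d → ℝ) →ₗ[ℝ] EuclideanSpace ℝ (Fin n) :=
    L.direction.subtype ∘ₗ b.equivFun.symm.toLinearMap
  have hT : Function.Injective T :=
    Subtype.val_injective.comp b.equivFun.symm.injective
  let A : (Fin d → ℝ) →ₗ[ℝ] (Fin n → ℝ) :=
    (EuclideanSpace.equiv (Fin n) ℝ).toLinearEquiv.toLinearMap ∘ₗ T
  have hA : Function.Injective A := (EuclideanSpace.equiv (Fin n) ℝ).injective.comp hT
  have hAT : ∀ t i, A t i = T t i := fun t i => rfl
  -- the extension of `ψ` to `ℕ`
  let ψ' : ℕ → ℝ := fun q => if h : 0 < q then (ψ ⟨q, h⟩ : ℝ) else (ψ 1 : ℝ)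
  have hψ'q : ∀ q : ℕ+, ψ' q = ψ q := by
    intro q
    simp only [ψ', q.pos, dif_pos]
    rfl
  have h0' : ∀ q, 0 ≤ ψ' q := by
    intro q
    simp only [ψ']
    split_ifs <;> positivity
  have hanti : Antitone ψ' := by
    intro q r hqr
    simp only [ψ']
    rcases Nat.eq_zero_or_pos q with hq | hq
    · subst hq
      rcases Nat.eq_zero_or_pos r with hr | hr
      · subst hr
        simp
      · simp only [hr, dif_pos, lt_irrefl, dif_neg, not_false_eq_true]
        exact_mod_cast hψ one_le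
    · have hr : 0 < r := lt_of_lt_of_le hq hqr
      simp only [hq, hr, dif_pos]
      exact_mod_cast hψ (show (⟨q, hq⟩ : ℕ+) ≤ ⟨r, hr⟩ from hqr)
  have hdiv' : ¬ Summable (fun q : ℕ => ψ' q ^ n) := by
    intro hs
    have h1 : Summable (fun q : ℕ+ => ψ' q ^ n) :=
      hs.comp_injective (i := fun q : ℕ+ => (q : ℕ)) PNat.coe_injective
    have h2 : Summable (fun q : ℕ+ => (ψ q) ^ n) := by
      rw [← NNReal.summable_coe]
      refine h1.congr fun q => ?_
      rw [hψ'q]
      push_cast
      rfl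
    have h3 := ENNReal.tsum_coe_ne_top_iff_summable.2 h2
    apply h3
    rw [← hdiv]
    refine tsum_congr fun q => ?_
    push_cast
    rfl
  have hae := core n d hL (fun i => p i) A hA ψ' h0' hanti hdiv'
  rw [ae_iff] at hae
  set N : Set (Fin d → ℝ) := {t | ¬ ∃ᶠ q : ℕ in atTop, ∀ i : Fin n,
    |(q : ℝ) * ((fun i => p i) i + A t i) - (round ((q : ℝ) * ((fun i => p i) i + A t i)) : ℝ)|
      < ψ' q} with hN
  -- the parametrisation is Lipschitz
  have hlip : LipschitzWith ‖LinearMap.toContinuousLinearMap T‖₊ (fun t => p + T t) := by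
    have h1 := (LinearMap.toContinuousLinearMap T).lipschitz
    intro x y
    rw [edist_add_left]
    exact h1 x y
  have hsub : ((L : Set (EuclideanSpace ℝ (Fin n))) \ Approximable n ψ) ⊆
      (fun t => p + T t) '' N := by
    rintro x ⟨hxL, hx⟩
    have hxd : x - p ∈ L.direction := AffineSubspace.vsub_mem_direction hxL hp
    refine ⟨b.equivFun ⟨x - p, hxd⟩, ?_, ?_⟩
    swap
    · show p + T (b.equivFun ⟨x - p, hxd⟩) = x
      simp [T]
    · have hxT : T (b.equivFun ⟨x - p, hxd⟩) = x - p := by simp [T]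
      intro hfr
      apply hx
      have hpt : ∀ i, p i + A (b.equivFun ⟨x - p, hxd⟩) i = x i := by
        intro i
        rw [hAT, hxT]
        simp
      show {q : ℕ+ | ∀ i, distInt (((q : ℕ) : ℝ) * x i) < ψ q}.Infinite
      intro hfin
      obtain ⟨M, hM⟩ := hfin.bddAbove
      have hev : ∀ᶠ q : ℕ in atTop, (M : ℕ) + 1 ≤ q := eventually_ge_atTop _
      obtain ⟨q, hq, hqM⟩ := (hfr.and_eventually hev).exists
      have hqpos : 0 < q := by omega
      have hmem : (⟨q, hqpos⟩ : ℕ+) ∈ {q : ℕ+ | ∀ i, distInt (((q : ℕ) : ℝ) * x i) < ψ q} := by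
        intro i
        have h1 := hq i
        simp only [] at h1
        rw [hpt i] at h1
        have h2 : ψ' q = ψ ⟨q, hqpos⟩ := hψ'q ⟨q, hqpos⟩
        rw [h2] at h1
        exact h1
      have h3 := hM hmem
      have h4 : q ≤ (M : ℕ) := h3
      omega
  refine measure_mono_null hsub ?_
  have h1 := hlip.hausdorffMeasure_image_le (d := (d : ℝ)) (Nat.cast_nonneg d) N
  have h2 : (Measure.hausdorffMeasure (d : ℝ) : Measure (Fin d → ℝ)) = volume := by
    have := hausdorffMeasure_pi_real (ι := Fin d)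
    rwa [Fintype.card_fin] at this
  rw [h2, hae, mul_zero] at h1
  exact le_antisymm h1 zero_le

end Pool.Agent.Results.MP_97775c_nt.OwnStatement
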